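import Mathlib

set_option autoImplicit false

/-! # Project FX: from the mean square to the quadratic form (real analysis) -/

namespace Pool.Agent.Q120.FX

open Filter Topology Set

lemma low_gen {f : ℕ → ℝ} {g : ℝ → ℝ} {c a c1 β : ℝ} {r : ℕ} (hc : 0 < c) (ha : 0 < a) (hc1 : 0 < c1)
    (h1 : ∀ᶠ N : ℕ in atTop, c * (N * g (a * Real.sqrt N)) ≤ f N)
    (h2 : ∀ᶠ x : ℝ in atTop, c1 * Real.log x ^ (2 * r + 1) ≤ g x ∧ c1 * (x ^ (2 * β - 1) * Real.log x ^ (2 * r)) ≤ g x) :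
    ∃ c' : ℝ, 0 < c' ∧ ∀ᶠ N : ℕ in atTop, c' * (N * Real.log N ^ (2 * r + 1)) ≤ f N ∧
      c' * ((N : ℝ) ^ (β + 1 / 2) * Real.log N ^ (2 * r)) ≤ f N := by
  have hsq : Tendsto (fun N : ℕ => a * Real.sqrt N) atTop atTop :=
    (Real.tendsto_sqrt_atTop.comp tendsto_natCast_atTop_atTop).const_mul_atTop ha
  have h3 := hsq.eventually h2
  have hlog : ∀ᶠ N : ℕ in atTop, Real.log N / 4 ≤ Real.log (a * Real.sqrt N) := by
    have h4 : Tendsto (fun N : ℕ => Real.log N) atTop atTop := Real.tendsto_log_atTop.comp tendsto_natCast_atTop_atTop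
    filter_upwards [h4.eventually_ge_atTop (-(4 * Real.log a)), eventually_ge_atTop 1] with N h5 h6
    have hN : (0 : ℝ) < N := by exact_mod_cast h6
    rw [Real.log_mul ha.ne' (Real.sqrt_pos.2 hN).ne', Real.log_sqrt hN.le]
    linarith
  have hp1 : 0 < c * c1 * (1 / 4) ^ (2 * r + 1) := by positivity
  have hp2 : 0 < c * c1 * a ^ (2 * β - 1) * (1 / 4) ^ (2 * r) := by positivity
  refine ⟨min (c * c1 * (1 / 4) ^ (2 * r + 1)) (c * c1 * a ^ (2 * β - 1) * (1 / 4) ^ (2 * r)), lt_min hp1 hp2, ?_⟩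
  filter_upwards [h1, h3, hlog, eventually_ge_atTop 2] with N g1 g2 g3 g4
  have hN : (0 : ℝ) < N := by
    have : 0 < N := by omega
    exact_mod_cast this
  have hl : 0 < Real.log N := Real.log_pos (by exact_mod_cast g4)
  set L := Real.log (a * Real.sqrt N) with hL
  have hL0 : 0 ≤ Real.log N / 4 := by positivity
  constructor
  · calc min (c * c1 * (1 / 4) ^ (2 * r + 1)) (c * c1 * a ^ (2 * β - 1) * (1 / 4) ^ (2 * r)) * (N * Real.log N ^ (2 * r + 1))
        ≤ c * c1 * (1 / 4) ^ (2 * r + 1) * (N * Real.log N ^ (2 * r + 1)) :=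
          mul_le_mul_of_nonneg_right (min_le_left _ _) (by positivity)
      _ = c * (N * (c1 * (Real.log N / 4) ^ (2 * r + 1))) := by
          rw [div_pow (Real.log N) 4, one_div_pow]
          ring
      _ ≤ c * (N * (c1 * L ^ (2 * r + 1))) := by
          refine mul_le_mul_of_nonneg_left (mul_le_mul_of_nonneg_left (mul_le_mul_of_nonneg_left ?_ hc1.le) hN.le) hc.le
          exact pow_le_pow_left₀ hL0 g3 _
      _ ≤ c * (N * g (a * Real.sqrt N)) :=
          mul_le_mul_of_nonneg_left (mul_le_mul_of_nonneg_left g2.1 hN.le) hc.le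
      _ ≤ f N := g1
  · have hN2 : (N : ℝ) ^ (β + 1 / 2) * a ^ (2 * β - 1) = N * (a * Real.sqrt N) ^ (2 * β - 1) := by
      rw [Real.mul_rpow ha.le (Real.sqrt_nonneg _), Real.sqrt_eq_rpow, ← Real.rpow_mul hN.le]
      have h7 : (N : ℝ) ^ (β + 1 / 2) = N * (N : ℝ) ^ (1 / 2 * (2 * β - 1)) := by
        have h8 : β + 1 / 2 = 1 + 1 / 2 * (2 * β - 1) := by ring
        rw [h8, Real.rpow_add hN, Real.rpow_one]
      rw [h7]
      ring
    calc min (c * c1 * (1 / 4) ^ (2 * r + 1)) (c * c1 * a ^ (2 * β - 1) * (1 / 4) ^ (2 * r)) *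
          ((N : ℝ) ^ (β + 1 / 2) * Real.log N ^ (2 * r))
        ≤ c * c1 * a ^ (2 * β - 1) * (1 / 4) ^ (2 * r) * ((N : ℝ) ^ (β + 1 / 2) * Real.log N ^ (2 * r)) :=
          mul_le_mul_of_nonneg_right (min_le_right _ _) (by positivity)
      _ = c * (c1 * (((N : ℝ) ^ (β + 1 / 2) * a ^ (2 * β - 1)) * (Real.log N / 4) ^ (2 * r))) := by
          rw [div_pow (Real.log N) 4, one_div_pow]
          ring
      _ = c * (N * (c1 * ((a * Real.sqrt N) ^ (2 * β - 1) * (Real.log N / 4) ^ (2 * r)))) := by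
          rw [hN2]
          ring
      _ ≤ c * (N * (c1 * ((a * Real.sqrt N) ^ (2 * β - 1) * L ^ (2 * r)))) := by
          refine mul_le_mul_of_nonneg_left (mul_le_mul_of_nonneg_left (mul_le_mul_of_nonneg_left
            (mul_le_mul_of_nonneg_left ?_ (by positivity)) hc1.le) hN.le) hc.le
          exact pow_le_pow_left₀ hL0 g3 _
      _ ≤ c * (N * g (a * Real.sqrt N)) :=
          mul_le_mul_of_nonneg_left (mul_le_mul_of_nonneg_left g2.2 hN.le) hc.le
      _ ≤ f N := g1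

end Pool.Agent.Q120.FX
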