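import Pool.Agent.Q120.FA.Stm4

set_option autoImplicit false

/-!
# Project FX: Farey fractions with denominators in residue classes and the zeros of Dirichlet L-functions

For `(b,q) = 1` let `E_{N,b}(t)` be the discrepancy of the Farey fractions `a/n`, `n ≤ N`, `n ≡ b mod q`, and
`Q_q(N) = ∑_b ∫_0^1 E_{N,b}²`. THEOREM. If some `L(s,χ)`, `χ mod q`, has a zero of order `≥ m` and real part `β ≥ 1/2` then for ALL large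
`N`: `Q_q(N) ≥ c N (log N)^(2m-1)` and `Q_q(N) ≥ c N^(β+1/2) (log N)^(2m-2)`. So if `Q_q(N) ≤ ε N (log N)^(2m+1)` for each `ε > 0` and
arbitrarily large `N` then GRH holds for all `χ mod q`, and all zeros have multiplicity `≤ m`; GRH mod `q` holds iff
`Q_q(N) ≤ N^(1+ε)` for arbitrarily large `N`, for each `ε`.

`1/ζ` is treated with `χ = 1`. The tool (J_X1 - J_X5): a kernel `k` supported on `y ≥ 1`, built from `(1 - 2^(1-s)) L(s,χ)/(s-ρ)^m`.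
-/

namespace Pool.Agent.Q120.FX

open MeasureTheory Filter Topology Set
open Pool.Agent.Q120.FA (j2)

/-- the coefficients of `(1 - 2^(1-s)) L(s,χ)` -/
noncomputable def ac {q : ℕ} (χ : DirichletCharacter ℂ q) (n : ℕ) : ℂ :=
  χ (n : ZMod q) - (if 2 ∣ n then 2 * χ ((n / 2 : ℕ) : ZMod q) else 0)

/-- their sums -/
noncomputable def Sa {q : ℕ} (χ : DirichletCharacter ℂ q) (u : ℝ) : ℂ := ∑ n ∈ Finset.Icc 1 ⌊u⌋₊, ac χ n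

/-- `φ(u) = u^ρ (log u)^r` -/
noncomputable def ph (ρ : ℂ) (r : ℕ) (u : ℝ) : ℂ := (u : ℂ) ^ ρ * (Real.log u : ℂ) ^ r

/-- the kernel `k(y) = ∑_{n ≤ y} a(n) φ(y/n)` -/
noncomputable def kk {q : ℕ} (χ : DirichletCharacter ℂ q) (ρ : ℂ) (r : ℕ) (y : ℝ) : ℂ :=
  ∑ n ∈ Finset.Icc 1 ⌊y⌋₊, ac χ n * ph ρ r (y / n)

/-- `M(x,χ) = ∑_{n ≤ x} μ(n) χ(n)` -/
noncomputable def Mc {q : ℕ} (χ : DirichletCharacter ℂ q) (x : ℝ) : ℂ :=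
  ∑ n ∈ Finset.Icc 1 ⌊x⌋₊, ((ArithmeticFunction.moebius n : ℤ) : ℂ) * χ (n : ZMod q)

/-- `∫_1^x |M(u,χ)/u|² du` -/
noncomputable def M2c {q : ℕ} (χ : DirichletCharacter ℂ q) (x : ℝ) : ℝ := ∫ u in (1 : ℝ)..x, (‖Mc χ u‖ / u) ^ 2

/-- `h(y,χ) = ∑_{m ≤ y} χ(m) M(y/m,χ)/m` -/
noncomputable def hc {q : ℕ} (χ : DirichletCharacter ℂ q) (y : ℝ) : ℂ :=
  ∑ m ∈ Finset.Icc 1 ⌊y⌋₊, χ (m : ZMod q) * Mc χ (y / m) / m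

/-- `∫_1^x |h(u,χ)/u|² du` -/
noncomputable def H2c {q : ℕ} (χ : DirichletCharacter ℂ q) (x : ℝ) : ℝ := ∫ u in (1 : ℝ)..x, (‖hc χ u‖ / u) ^ 2

/-- `G(x) = ∫_1^x φ(u) du/u` (`= 0` for `x ≤ 1`) -/
noncomputable def Gr (ρ : ℂ) (r : ℕ) (x : ℝ) : ℂ := ∫ u in Ioc (1 : ℝ) x, ph ρ r u / u

/-- `e ↦ ∑_{e ≤ N} j2(e) |χ(e)|² |h(N/e,χ)|²` -/
noncomputable def QF {q : ℕ} (χ : DirichletCharacter ℂ q) (N : ℕ) : ℝ :=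
  ∑ e ∈ Finset.Icc 1 N, j2 e * ‖χ (e : ZMod q)‖ ^ 2 * ‖hc χ ((N : ℝ) / e)‖ ^ 2

/-- JOB X1 (1.2 h). Proof. `S(u) = ∑_{n≤u} a(n) = S_χ(u) - 2 S_χ(u/2)`, `S_χ(u) = ∑_{n≤u} χ(n)`; `S_χ(u) = c_χ u + O(q)` (`c_χ = φ(q)/q` for the
principal character, else `0`; periodicity: the function `S_χ(n) - c_χ n` of the natural number `n` is periodic mod `q`), so `S` is bounded.
`B(s) = ∫_1^∞ S(u) u^(-s-1) du` is analytic for `Re s > 0` with `B^(j)(s) = ∫_1^∞ S(u) (-log u)^j u^(-s-1) du` (differentiation under the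
integral, or `mellin_hasDerivAt_of_isBigO_rpow` repeatedly), and for `Re s > 1` `s B(s) = ∑ a(n) n^(-s) = (1 - 2^(1-s)) L(s,χ)`; by the identity
theorem this holds for `Re s > 0`, `s ≠ 1`. At a zero `ρ` of `L` of order `≥ m` the first `m` derivatives of `B` vanish. -/
def J_X1 : Prop := ∀ (q : ℕ) [NeZero q] (χ : DirichletCharacter ℂ q),
  (∃ B : ℝ, ∀ u : ℝ, ‖Sa χ u‖ ≤ B) ∧
  ∀ (ρ : ℂ) (m : ℕ), 0 < ρ.re → ρ.re < 1 → (m : ℕ∞) ≤ analyticOrderAt (DirichletCharacter.LFunction χ) ρ →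
    ∀ j : ℕ, j < m → ∫ u in Ioi (1 : ℝ), Sa χ u * (u : ℂ) ^ (-ρ - 1) * (Real.log u : ℂ) ^ j = 0

/-- JOB X2 (1 h, uses `J_X1`). The kernel is bounded.
Proof. Partial summation: `k(y) = S(y) φ(1) + ∫_1^y S(u) (y/u²) φ'(y/u) du` (`φ'(t) = ρ t^(ρ-1) (log t)^r + r t^(ρ-1) (log t)^(r-1)` for `t ≥ 1`),
the integrand is `S(u) y^ρ u^(-ρ-1) (ρ (log y - log u)^r + r (log y - log u)^(r-1))`, whose integral over `(1,∞)` is `0` by `J_X1`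
(`j ≤ r`). So `k(y) = S(y) φ(1) - ∫_y^∞`, and `|∫_y^∞| ≤ B ∫_y^∞ y^β u^(-β-1) (|ρ| (log(u/y))^r + r (log(u/y))^(r-1)) du`, a constant (`u = yt`). -/
def J_X2 : Prop := ∀ (q : ℕ) [NeZero q] (χ : DirichletCharacter ℂ q) (ρ : ℂ) (r : ℕ), 0 < ρ.re → ρ.re < 1 →
  ((r + 1 : ℕ) : ℕ∞) ≤ analyticOrderAt (DirichletCharacter.LFunction χ) ρ → ∃ B : ℝ, ∀ y : ℝ, 1 ≤ y → ‖kk χ ρ r y‖ ≤ B

/-- JOB X3 (1 h). The identity. Proof. `∑_{n≤z} χ(n) M(z/n,χ) = 1` for `z ≥ 1` (`∑_{d ∣ n} μ(d) = 0` for `n > 1`), `= 0` for `z < 1`, so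
`∑_{n≤z} a(n) M(z/n,χ) = 1_(z≥1) - 2·1_(z≥2)` (the terms with `2 ∣ n`, `n = 2n'`). With `y = nu`
`∫_1^x M(x/y,χ) k(y) dy/y = ∑_{n≤x} a(n) ∫_1^(x/n) M(x/(nu),χ) φ(u) du/u = ∫_1^x φ(u) (∑_{n ≤ x/u} a(n) M(x/(un),χ)) du/u`
(finite sums of bounded functions on bounded intervals). -/
def J_X3 : Prop := ∀ (q : ℕ) [NeZero q] (χ : DirichletCharacter ℂ q) (ρ : ℂ) (r : ℕ), 0 < ρ.re → ∀ x : ℝ, 1 ≤ x →
  IntegrableOn (fun y : ℝ => Mc χ (x / y) * kk χ ρ r y / y) (Ioc 1 x) ∧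
  ∫ y in Ioc (1 : ℝ) x, Mc χ (x / y) * kk χ ρ r y / y = Gr ρ r x - 2 * Gr ρ r (x / 2)

/-- JOB X4 (0.7 h). Proof. `G(x) = ∫_0^(log x) e^(ρv) v^r dv`, and `G(x)/(x^ρ (log x)^r) → 1/ρ` (by parts:
`G = x^ρ (log x)^r/ρ - (r/ρ) ∫_0^V e^(ρv) v^(r-1) dv`, `V = log x`, the last integral is `≤ V^(r-1) e^(βV)/β`), so
`(G(x) - 2 G(x/2))/(x^ρ (log x)^r) → (1 - 2^(1-ρ))/ρ ≠ 0` (`|2^(1-ρ)| = 2^(1-β) > 1`). -/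
def J_X4 : Prop := ∀ (ρ : ℂ) (r : ℕ), 0 < ρ.re → ρ.re < 1 →
  ∃ c : ℝ, 0 < c ∧ ∀ᶠ x : ℝ in atTop, c * (x ^ ρ.re * Real.log x ^ r) ≤ ‖Gr ρ r x - 2 * Gr ρ r (x / 2)‖

/-- JOB X5 (1.2 h, uses `J_X2`, `J_X3`, `J_X4`). The lower bound for the mean square of `M(u,χ)`.
Proof. Let `B` bound `|k|`, `g(x) = G(x) - 2G(x/2)`. Cauchy-Schwarz:
`|g(x)|² ≤ ∫_1^x |k(y)| y^(-3/2) dy · ∫_1^x |M(x/y)|² |k(y)| y^(-1/2) dy ≤ 2B² ∫_1^x |M(x/y)|² y^(-1/2) dy`, so (Fubini, `x = yu`)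
`∫_1^X |g(x)|² x^(-2) dx ≤ 2B² ∫_1^X y^(-3/2) ∫_1^(X/y) |M(u)|² u^(-2) du dy ≤ 4B² M2c(X)`. And by `J_X4` (`β ≥ 1/2`)
`∫_1^X |g|² x^(-2) dx ≥ c² ∫_(x₀)^X x^(2β-2) (log x)^(2r) dx`, which is `≥ c' (log X)^(2r+1)` and `≥ c' X^(2β-1) (log X)^(2r)` (over `[X/2,X]`). -/
def J_X5 : Prop := ∀ (q : ℕ) [NeZero q] (χ : DirichletCharacter ℂ q) (ρ : ℂ) (r : ℕ), 1 / 2 ≤ ρ.re → ρ.re < 1 →
  ((r + 1 : ℕ) : ℕ∞) ≤ analyticOrderAt (DirichletCharacter.LFunction χ) ρ →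
  ∃ c : ℝ, 0 < c ∧ ∀ᶠ x : ℝ in atTop, c * Real.log x ^ (2 * r + 1) ≤ M2c χ x ∧
    c * (x ^ (2 * ρ.re - 1) * Real.log x ^ (2 * r)) ≤ M2c χ x

/-- JOB X6 (0.8 h). Proof. `M(y,χ) = ∑_{m≤y} (μ(m) χ(m)/m) h(y/m,χ)` and Minkowski, as in `Pool/Agent/Q124/FA/W2a.lean` (`Mr_inv`, `TT_major`),
`C = (∑ m^(-3/2))²`. -/
def J_X6 : Prop := ∀ (q : ℕ) [NeZero q] (χ : DirichletCharacter ℂ q), ∃ C : ℝ, 0 < C ∧ ∀ x : ℝ, 1 ≤ x → M2c χ x ≤ C * H2c χ x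

/-- JOB X7 (0.8 h). Proof. As `Pool/Agent/Q176/FA/W5.lean` (`lower`, `fibre`, `H2_le`), with `j2 e ≥ 1/4`: for an integer `n` with
`4 q n (n+1) ≤ N` the interval `(N/(n+1), N/n]` has length `≥ 4q` and contains at least `N/(4 q n (n+1))` integers `e ≡ 1 mod q` or so
(`‖χ e‖ = 1` for them), and `h` is constant on `[n,n+1)`. -/
def J_X7 : Prop := ∀ (q : ℕ) [NeZero q] (χ : DirichletCharacter ℂ q), ∃ c : ℝ, 0 < c ∧ ∀ᶠ N : ℕ in atTop,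
  c * (N * H2c χ (c * Real.sqrt N)) ≤ QF χ N

/-- the number of Farey fractions `a/n ≤ t` of order `N` with `n ≡ b mod q` -/
noncomputable def cntc {q : ℕ} (b : ZMod q) (N : ℕ) (t : ℝ) : ℕ := by
  classical
  exact ((Finset.Icc 1 N ×ˢ Finset.Icc 1 N).filter fun p : ℕ × ℕ =>
    p.1 ≤ p.2 ∧ p.1.Coprime p.2 ∧ (p.2 : ZMod q) = b ∧ (p.1 : ℝ) / (p.2 : ℝ) ≤ t).card

/-- their discrepancy -/
noncomputable def Ec {q : ℕ} (b : ZMod q) (N : ℕ) (t : ℝ) : ℝ := by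
  classical
  exact (cntc b N t : ℝ) - (∑ n ∈ (Finset.Icc 1 N).filter (fun n : ℕ => (n : ZMod q) = b), (n.totient : ℝ)) * t

/-- `Q_q(N) = ∑_{(b,q)=1} ∫_0^1 E_{N,b}²` -/
noncomputable def Qc (q N : ℕ) [NeZero q] : ℝ := ∑ b : (ZMod q)ˣ, ∫ t in (0 : ℝ)..1, Ec (b : ZMod q) N t ^ 2

/-- JOB X8 (1 h). Proof. As `Pool/Agent/Q210/FA/W1.lean` with `χ`: for `0 ≤ t ≤ 1`
`∑_b χ(b) E_{N,b}(t) = ∑_{n≤N} χ(n) (#{a ≤ nt : (a,n)=1} - φ(n) t) = -∑_{d≤N} χ(d) M(N/d,χ) {dt} = -∑_d χ(d) M(N/d,χ) ψ(dt) - 1/2` (`ψ = {·} - 1/2`,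
`∑_d χ(d) M(N/d,χ) = 1`), `∫ψ(at)ψ(bt) = (a,b)²/(12ab)`, `(a,b)² = ∑_{e ∣ (a,b)} e² j2(e)`. -/
def J_X8 : Prop := ∀ (q : ℕ) [NeZero q] (χ : DirichletCharacter ℂ q) (N : ℕ), 1 ≤ N →
  ∫ t in (0 : ℝ)..1, ‖∑ b : (ZMod q)ˣ, χ (b : ZMod q) * (Ec (b : ZMod q) N t : ℂ)‖ ^ 2 = 1 / 12 * QF χ N + 1 / 4

/-- JOB X9 (0.5 h). Proof. Orthogonality of characters (`DirichletCharacter.sum_char_inv_mul_char_eq`), for each `t`: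
`∑_χ |∑_b χ(b) x_b|² = φ(q) ∑_b x_b²` for real `x_b`; finite sums of bounded measurable functions of `t`. -/
def J_X9 : Prop := ∀ (q : ℕ) [NeZero q] (N : ℕ),
  ∑ χ : DirichletCharacter ℂ q, ∫ t in (0 : ℝ)..1, ‖∑ b : (ZMod q)ˣ, χ (b : ZMod q) * (Ec (b : ZMod q) N t : ℂ)‖ ^ 2 =
    (q.totient : ℝ) * Qc q N

/-- JOB X10 (1 h). `1/L(s,χ) ≪ |t|^ε` to the right of the zeros (Littlewood). Proof. As `Pool/Agent/H295R2/Z.lean`, `L.lean` (`fz_bound`, zeta): a bound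
`L(s,χ) ≪ |t|^A` for `Re s ≥ 1/4`, `|t| ≥ 1` (library), Borel-Caratheodory for `log L` on discs, and three circles. (Perhaps a version for
`L(s,χ)` or for a general Dirichlet series is already in the library.) -/
def J_X10 : Prop := ∀ (q : ℕ) [NeZero q] (χ : DirichletCharacter ℂ q) (θ : ℝ), 1 / 2 ≤ θ → θ < 1 →
  (∀ s : ℂ, θ < s.re → s.re < 1 → DirichletCharacter.LFunction χ s ≠ 0) → ∀ σ ε : ℝ, θ < σ → 0 < ε →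
  ∃ C : ℝ, ∀ s : ℂ, σ ≤ s.re → s.re ≤ 2 → 1 ≤ |s.im| → ‖(DirichletCharacter.LFunction χ s)⁻¹‖ ≤ C * |s.im| ^ ε

/-- JOB X11 (1 h, uses `J_X10`). Proof. Perron's formula as in `Pool/Agent/H295R2/P.lean`, `M.lean` (`mertens_bound`): `1/L(s,χ)` is analytic for
`Re s > θ` (for the principal character `1/L(s,χ)` has the removable point `s = 1`, a zero), the Dirichlet series of `μχ` for `Re s > 1`. (Perhaps a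
general theorem in the library: coefficients bounded by 1, continuation with the bound `|t|^ε` gives partial sums `≪ x^σ`.) -/
def J_X11 : Prop := ∀ (q : ℕ) [NeZero q] (χ : DirichletCharacter ℂ q) (θ : ℝ), 1 / 2 ≤ θ → θ < 1 →
  (∀ s : ℂ, θ < s.re → s.re < 1 → DirichletCharacter.LFunction χ s ≠ 0) → ∀ σ : ℝ, θ < σ →
  ∃ C : ℝ, ∀ x : ℝ, 1 ≤ x → ‖Mc χ x‖ ≤ C * x ^ σ

/-- JOB X12 (0.4 h). Proof. `|M(u,χ)| ≤ C u^σ` gives `|h(y,χ)| ≤ C ∑ m^(-1-σ) y^σ`, and `∑_{e≤N} (N/e)^(2σ) ≤ C' N^(2σ)` (`2σ > 1`), `0 ≤ j2 e ≤ 2`,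
`‖χ e‖ ≤ 1`. -/
def J_X12 : Prop := ∀ (q : ℕ) [NeZero q] (χ : DirichletCharacter ℂ q) (σ C : ℝ), 1 / 2 < σ →
  (∀ x : ℝ, 1 ≤ x → ‖Mc χ x‖ ≤ C * x ^ σ) → ∃ C' : ℝ, ∀ N : ℕ, 1 ≤ N → QF χ N ≤ C' * (N : ℝ) ^ (2 * σ)

end Pool.Agent.Q120.FX
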